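import Pool.Agent.H458.AG.Def

/-!
# Project AG (helper458), part TAIL (helper152)

The discriminants divisible by the square of a prime which is not small (all genera).
After `H294/AU458/TAIL.lean` (helper294, genus one).
-/

set_option autoImplicit false
set_option linter.all false

open Polynomial NumberField IsDedekindDomain
open scoped Classical

namespace Pool.Agent.H152.AG458

open Pool.Agent.N352.PJ (dd pol dis Dy D2)
open Pool.Agent.N352.PF (dg Bal nv rv Bz Bx S_BX S_WK S_STR S_PF)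
open Pool.Agent.N783.PF (Ht dsc Weak)
open Pool.Agent.N951.PF (ht_pol bz_coeff eq_pol pol_inj)

theorem bound {C R : ℕ} {n X ε : ℝ} (hε : 0 < ε) (hX : 0 ≤ X) (hR : 4 * (C : ℝ) / ε ≤ R)
    (h : ((max R 1 : ℕ) : ℝ) * n ≤ C * X) : n ≤ ε / 4 * X := by
  have hRpos : (0 : ℝ) < ((max R 1 : ℕ) : ℝ) := by
    have e1 : 1 ≤ max R 1 := le_max_right _ _
    exact_mod_cast e1
  have hRge : 4 * (C : ℝ) ≤ ε * ((max R 1 : ℕ) : ℝ) := by
    have e1 : ((R : ℕ) : ℝ) ≤ ((max R 1 : ℕ) : ℝ) := by exact_mod_cast le_max_left R 1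
    have e2 := hR.trans e1
    rw [div_le_iff₀ hε] at e2
    linarith
  have e7 : 4 * (C : ℝ) * X ≤ ε * ((max R 1 : ℕ) : ℝ) * X := mul_le_mul_of_nonneg_right hRge hX
  have e6 : ((max R 1 : ℕ) : ℝ) * n ≤ ((max R 1 : ℕ) : ℝ) * (ε / 4 * X) := by
    nlinarith [h, e7]
  exact le_of_mul_le_mul_left e6 hRpos

theorem tail (h0 : Pool.Agent.H458.AU.S_SMLR) (h1 : Pool.Agent.N352.PF.S_BX)
    (h2 : Pool.Agent.N352.PF.S_STR) (h3 : Pool.Agent.N352.PF.S_WK)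
    (h4 : Pool.Agent.N352.PF.S_PF) : Pool.Agent.H458.AG.S_TAIL := by
  intro F _ _ g hg ε hε
  obtain ⟨C₁, hC₁, hBX⟩ := h1 F g
  obtain ⟨R₀, hR₀⟩ := exists_nat_ge (4 * (C₁ : ℝ) / ε)
  obtain ⟨M₀, C₂, hC₂, hM⟩ := h0 F g (max R₀ 1) hg (le_max_right _ _)
  refine ⟨max M₀ ((2 * g + 1).factorial ^ dg F), fun c hc => ?_⟩
  obtain ⟨K, hK⟩ : ∃ K : ℕ, K = c ^ (dg F * dd g) := ⟨_, rfl⟩
  have hK0 : 0 < K := by
    rw [hK]
    exact pow_pos hc _
  have hK0' : (0 : ℝ) < K := by exact_mod_cast hK0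
  obtain ⟨R₁, hR₁⟩ := exists_nat_ge (4 * ((C₁ * K : ℕ) : ℝ) / ε)
  obtain ⟨M₁, C₃, hC₃, hM1⟩ := h0 F g (max R₁ 1) hg (le_max_right _ _)
  obtain ⟨B₁, hB₁⟩ := h2 F g hg (ε / 4 / K) (by positivity)
  refine ⟨max B₁ (max C₁ (max C₂ (max C₃ (M₁ ^ 2 + 1)))), fun B hB => ?_⟩
  have hBB1 : B₁ ≤ B := (le_max_left _ _).trans hB
  have hB' := (le_max_right _ _).trans hB
  have hBC1 : C₁ ≤ B := (le_max_left _ _).trans hB'
  have hB'' := (le_max_right _ _).trans hB'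
  have hBC2 : C₂ ≤ B := (le_max_left _ _).trans hB''
  have hB3 := (le_max_right _ _).trans hB''
  have hBC3 : C₃ ≤ B := (le_max_left _ _).trans hB3
  have hBM : M₁ ^ 2 + 1 ≤ B := (le_max_right _ _).trans hB3
  have hcB : B ≤ c * B := Nat.le_mul_of_pos_left B hc
  have hD : 0 < dg F := Module.finrank_pos
  obtain ⟨hfin, -, hcard⟩ := hBX B 1 (fun _ => 0) one_pos (by omega)
  obtain ⟨hfinc, -, hcardc⟩ := hBX (c * B) 1 (fun _ => 0) one_pos (by omega)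
  have hsml := hM B 1 (fun _ => 0) one_pos (by omega)
  have hsmlc := hM1 (c * B) 1 (fun _ => 0) one_pos (by omega)
  have hstr := hB₁ (c * B) (by omega)
  have hsub : ∀ T : ℕ, Bz F g T ⊆ Bx g T 1 (fun _ => 0) := by
    intro T a ha
    exact ⟨ha, fun j => by simp⟩
  have hmono : Bz F g B ⊆ Bz F g (c * B) := by
    intro a ha j σ
    refine (ha j σ).trans ?_
    have e1 : B ^ (2 * g + 1 - (j : ℕ)) ≤ (c * B) ^ (2 * g + 1 - (j : ℕ)) :=
      Nat.pow_le_pow_left hcB _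
    exact_mod_cast e1
  have hBz : (Bz F g B).Finite := hfin.subset (hsub B)
  have hBzc : (Bz F g (c * B)).Finite := hfinc.subset (hsub (c * B))
  have hHt : {f : (𝓞 F)[X] | Ht g B f} ⊆ pol '' Bz F g B := by
    intro f hf
    exact ⟨_, bz_coeff hf, (eq_pol hf).symm⟩
  refine ⟨(hBz.image _).subset hHt, ?_⟩
  set U := Bx g B 1 (fun _ => (0 : 𝓞 F)) with hU
  set Uc := Bx g (c * B) 1 (fun _ => (0 : 𝓞 F)) with hUc
  set U1 := {a ∈ U | ∃ v : HeightOneSpectrum (𝓞 F), M₀ < nv v ∧ nv v ^ 2 < B ^ dg F ∧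
    ((1 : ℕ) : 𝓞 F) ∉ v.asIdeal ∧ dis a ∈ v.asIdeal ^ 2} with hU1
  set U3 := {a ∈ Uc | ∃ v : HeightOneSpectrum (𝓞 F), M₁ < nv v ∧ nv v ^ 2 < (c * B) ^ dg F ∧
    ((1 : ℕ) : 𝓞 F) ∉ v.asIdeal ∧ dis a ∈ v.asIdeal ^ 2} with hU3
  set U2 := {a ∈ Bz F g (c * B) | ∃ v : HeightOneSpectrum (𝓞 F), (c * B) ^ dg F ≤ nv v ^ 2 ∧
    dis a ∈ v.asIdeal ∧ D2 a ∈ v.asIdeal} with hU2
  have hU1f : U1.Finite := hfin.subset (Set.sep_subset _ _)
  have hU3f : U3.Finite := hfinc.subset (Set.sep_subset _ _)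
  have hU2f : U2.Finite := hBzc.subset (Set.sep_subset _ _)
  have h1v : ∀ v : HeightOneSpectrum (𝓞 F), ((1 : ℕ) : 𝓞 F) ∉ v.asIdeal := by
    intro v h
    rw [Nat.cast_one] at h
    exact v.isPrime.ne_top ((Ideal.eq_top_iff_one _).2 h)
  have key : {f : (𝓞 F)[X] | Ht g B f ∧ ∃ v : HeightOneSpectrum (𝓞 F),
      max M₀ ((2 * g + 1).factorial ^ dg F) < nv v ∧ dsc g f ∈ v.asIdeal ^ 2 ∧
      ¬ ((c * B) ^ Module.finrank ℚ F ≤ Ideal.absNorm v.asIdeal ^ 2 ∧ Weak v.asIdeal f)} ⊆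
      pol '' (U1 ∪ (U3 ∪ U2)) := by
    rintro f ⟨hf, v, hv1, hv2, hv3⟩
    obtain ⟨a, ha⟩ : ∃ a : Fin (2 * g) → 𝓞 F, a = fun j : Fin (2 * g) => f.coeff j := ⟨_, rfl⟩
    have haf : f = pol a := by
      rw [ha]
      exact eq_pol hf
    have haB : a ∈ Bz F g B := by
      rw [ha]
      exact bz_coeff hf
    rw [haf] at hv2 hv3
    have hd : dis a ∈ v.asIdeal ^ 2 := hv2
    refine ⟨a, ?_, haf.symm⟩
    by_cases hBc : (c * B) ^ dg F ≤ nv v ^ 2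
    · by_cases hDm : D2 a ∈ v.asIdeal
      · exact Or.inr (Or.inr ⟨hmono haB, v, hBc, Ideal.pow_le_self two_ne_zero hd, hDm⟩)
      · exfalso
        have hfac : ((2 * g + 1).factorial : 𝓞 F) ∉ v.asIdeal := by
          intro h
          have e2 := (h4 F).2.1 v (2 * g + 1).factorial (Nat.factorial_pos _) h
          have e3 := (le_max_right M₀ ((2 * g + 1).factorial ^ dg F)).trans_lt hv1
          omega
        exact hv3 ⟨hBc, h3 F g v hg hfac a hd hDm⟩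
    · by_cases hB2 : B ^ dg F ≤ nv v ^ 2
      · refine Or.inr (Or.inl ⟨hsub _ (hmono haB), v, ?_, not_le.1 hBc, h1v v, hd⟩)
        have e1 : B ≤ B ^ dg F := Nat.le_self_pow hD.ne' B
        have e2 : M₁ ^ 2 < nv v ^ 2 := by omega
        exact lt_of_pow_lt_pow_left₀ 2 (Nat.zero_le _) e2
      · exact Or.inl ⟨hsub _ haB, v, (le_max_left _ _).trans_lt hv1, not_le.1 hB2, h1v v, hd⟩
  have hc1 := (Set.ncard_le_ncard key ((hU1f.union (hU3f.union hU2f)).image _)).trans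
    ((Set.ncard_image_le (hU1f.union (hU3f.union hU2f))).trans ((Set.ncard_union_le U1 _).trans
      (Nat.add_le_add_left (Set.ncard_union_le U3 U2) _)))
  have hc2 : (({f : (𝓞 F)[X] | Ht g B f ∧ ∃ v : HeightOneSpectrum (𝓞 F),
      max M₀ ((2 * g + 1).factorial ^ dg F) < nv v ∧ dsc g f ∈ v.asIdeal ^ 2 ∧
      ¬ ((c * B) ^ Module.finrank ℚ F ≤ Ideal.absNorm v.asIdeal ^ 2 ∧
        Weak v.asIdeal f)}.ncard : ℝ)) ≤
      (U1.ncard : ℝ) + ((U3.ncard : ℝ) + (U2.ncard : ℝ)) := by exact_mod_cast hc1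
  rw [one_pow, mul_one] at hcard hcardc
  have hX : (0 : ℝ) ≤ (B : ℝ) ^ (dg F * dd g) := by positivity
  have hcX : ((c * B : ℕ) : ℝ) ^ (dg F * dd g) = (K : ℝ) * (B : ℝ) ^ (dg F * dd g) := by
    rw [hK]
    push_cast
    rw [mul_pow]
  have f1 : (U1.ncard : ℝ) ≤ ε / 4 * (B : ℝ) ^ (dg F * dd g) := by
    refine bound hε hX hR₀ ?_
    have e4 := hsml.trans hcard
    exact_mod_cast e4
  have f3 : (U3.ncard : ℝ) ≤ ε / 4 * (B : ℝ) ^ (dg F * dd g) := by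
    refine bound hε hX hR₁ ?_
    have e4 := hsmlc.trans hcardc
    have e5 : ((max R₁ 1 : ℕ) : ℝ) * (U3.ncard : ℝ) ≤ (C₁ : ℝ) * ((c * B : ℕ) : ℝ) ^ (dg F * dd g) := by
      exact_mod_cast e4
    rw [hcX] at e5
    push_cast
    push_cast at e5
    linarith
  have f2 : (U2.ncard : ℝ) ≤ ε / 4 * (B : ℝ) ^ (dg F * dd g) := by
    have e1 : (U2.ncard : ℝ) ≤ ε / 4 / K * ((c * B : ℕ) : ℝ) ^ (dg F * dd g) := hstr
    rw [hcX] at e1
    have e2 : ε / 4 / (K : ℝ) * ((K : ℝ) * (B : ℝ) ^ (dg F * dd g)) =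
        ε / 4 * (B : ℝ) ^ (dg F * dd g) := by
      field_simp
    rwa [e2] at e1
  have hεX : 0 ≤ ε * (B : ℝ) ^ (dg F * dd g) := by positivity
  refine hc2.trans ?_
  show _ ≤ ε * (B : ℝ) ^ (dg F * dd g)
  linarith

end Pool.Agent.H152.AG458
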